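import Mathlib
import Pool.Agent.Helper12_WBX.Stmts

set_option autoImplicit false

/-! Squad WBX, module ADR: the addresses of the leaves labelled by a variable. -/

namespace Pool.Agent.WBX

namespace H83

/-- A binary node: the addresses are those of the two children, with one more letter. -/
theorem bin (f g h : Fm) (v : ℕ) (hc : ∀ d, h.child d = some (if d = true then g else f))
    (hv : h ≠ .var v)
    (hf : ∃ R : Finset (List Bool), R.card ≤ f.reads v ∧ ∀ ξ, f.desc ξ = some (.var v) → ξ ∈ R)
    (hg : ∃ R : Finset (List Bool), R.card ≤ g.reads v ∧ ∀ ξ, g.desc ξ = some (.var v) → ξ ∈ R) :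
    ∃ R : Finset (List Bool), R.card ≤ f.reads v + g.reads v ∧
      ∀ ξ, h.desc ξ = some (.var v) → ξ ∈ R := by
  classical
  obtain ⟨A, hA, hA'⟩ := hf
  obtain ⟨B, hB, hB'⟩ := hg
  refine ⟨A.image (List.cons false) ∪ B.image (List.cons true), ?_, ?_⟩
  · calc (A.image (List.cons false) ∪ B.image (List.cons true)).card
        ≤ (A.image (List.cons false)).card + (B.image (List.cons true)).card :=
          Finset.card_union_le _ _
      _ ≤ A.card + B.card := Nat.add_le_add Finset.card_image_le Finset.card_image_le
      _ ≤ _ := Nat.add_le_add hA hB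
  · intro ξ hξ
    cases ξ with
    | nil =>
      simp only [Fm.desc, Option.some.injEq] at hξ
      exact absurd hξ hv
    | cons d ξ =>
      simp only [Fm.desc, hc d, Option.bind_some] at hξ
      cases d with
      | false =>
        simp only [Bool.false_eq_true, if_false] at hξ
        exact Finset.mem_union_left _ (Finset.mem_image.2 ⟨ξ, hA' ξ hξ, rfl⟩)
      | true =>
        simp only [if_true] at hξ
        exact Finset.mem_union_right _ (Finset.mem_image.2 ⟨ξ, hB' ξ hξ, rfl⟩)

end H83

theorem adr : AdrStmt := by
  intro f v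
  induction f with
  | zero =>
    refine ⟨∅, by simp, ?_⟩
    intro ξ hξ
    cases ξ with
    | nil => simp [Fm.desc] at hξ
    | cons d ξ => simp [Fm.desc, Fm.child] at hξ
  | one =>
    refine ⟨∅, by simp, ?_⟩
    intro ξ hξ
    cases ξ with
    | nil => simp [Fm.desc] at hξ
    | cons d ξ => simp [Fm.desc, Fm.child] at hξ
  | var w =>
    by_cases hw : w = v
    · refine ⟨{[]}, by simp [Fm.reads, hw], ?_⟩
      intro ξ hξ
      cases ξ with
      | nil => simp
      | cons d ξ => simp [Fm.desc, Fm.child] at hξ
    · refine ⟨∅, by simp, ?_⟩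
      intro ξ hξ
      cases ξ with
      | nil =>
        simp only [Fm.desc, Option.some.injEq, Fm.var.injEq] at hξ
        exact absurd hξ hw
      | cons d ξ => simp [Fm.desc, Fm.child] at hξ
  | add f g hf hg => exact H83.bin f g (.add f g) v (fun d => rfl) (by simp) hf hg
  | sub f g hf hg => exact H83.bin f g (.sub f g) v (fun d => rfl) (by simp) hf hg
  | mul f g hf hg => exact H83.bin f g (.mul f g) v (fun d => rfl) (by simp) hf hg

end Pool.Agent.WBX
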